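import Pool.Agent.FTU.Stmts

/-!
# FTU squad, row PSA: closure properties of the class `PS`
-/

set_option autoImplicit false
set_option linter.unusedSectionVars false

open MeasureTheory Complex ProbabilityTheory

noncomputable section

namespace Pool.Agent.FTU.H73

open Pool.Agent.Helper49_Pauli
open Pool.Agent.MBX
open Pool.Agent.Loc (γn PB)

variable {ι : Type} [Fintype ι] [DecidableEq ι]

/-! ### linear maps -/

/-- The space of all functions. -/
abbrev Fn (ι : Type) : Type := (ι → ℝ) → X3 → ℂ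

omit [Fintype ι] [DecidableEq ι] in
theorem span_map {s : Set (Fn ι)} {S : Submodule ℂ (Fn ι)} (T : Fn ι →ₗ[ℂ] Fn ι)
    (h : ∀ v ∈ s, T v ∈ S) : ∀ v ∈ Submodule.span ℂ s, T v ∈ S := fun _ hv =>
  (Submodule.map_span_le T s S).2 h (Submodule.mem_map_of_mem hv)

/-- Multiplication from the right. -/
def mulR (r : Fn ι) : Fn ι →ₗ[ℂ] Fn ι where
  toFun q := fun y x => q y x * r y x
  map_add' a b := by
    funext y x
    simp only [Pi.add_apply]
    ring
  map_smul' c a := by
    funext y x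
    simp only [Pi.smul_apply, smul_eq_mul, RingHom.id_apply]
    ring

/-- Multiplication from the left. -/
def mulL (r : Fn ι) : Fn ι →ₗ[ℂ] Fn ι where
  toFun q := fun y x => r y x * q y x
  map_add' a b := by
    funext y x
    simp only [Pi.add_apply]
    ring
  map_smul' c a := by
    funext y x
    simp only [Pi.smul_apply, smul_eq_mul, RingHom.id_apply]
    ring

/-- Composition with maps of the arguments. -/
def cmp (f : (ι → ℝ) → ι → ℝ) (g : X3 → X3) : Fn ι →ₗ[ℂ] Fn ι where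
  toFun q := fun y x => q (f y) (g x)
  map_add' _ _ := rfl
  map_smul' _ _ := rfl

/-! ### generators -/

theorem ps_gen (P : MvPolynomial ι ℂ) {f : X3 → ℂ} (hf : ContDiff ℝ (⊤ : ℕ∞) f) : Gen P f ∈ PS ι :=
  Submodule.subset_span ⟨P, f, hf, rfl⟩

theorem ss_gen (P : MvPolynomial ι ℂ) {f : X3 → ℂ} (hf : CS f) : Gen P f ∈ SS ι :=
  Submodule.subset_span ⟨P, f, hf, rfl⟩

theorem gen_mul (P Q : MvPolynomial ι ℂ) (f g : X3 → ℂ) :
    (fun y x => Gen P f y x * Gen Q g y x) = Gen (P * Q) (fun x => f x * g x) := by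
  funext y x
  simp only [Gen, map_mul]
  ring

theorem eval_shift (e y : ι → ℝ) (P : MvPolynomial ι ℂ) :
    MvPolynomial.eval (fun i => ((y i + e i : ℝ) : ℂ)) P =
      MvPolynomial.eval (fun i => ((y i : ℝ) : ℂ))
        (MvPolynomial.bind₁ (fun i => MvPolynomial.X i + MvPolynomial.C ((e i : ℝ) : ℂ)) P) := by
  induction P using MvPolynomial.induction_on with
  | C a => simp
  | add p q hp hq => simp only [map_add, hp, hq]
  | mul_X p i hp =>
    simp only [map_mul, MvPolynomial.bind₁_X_right, map_add, MvPolynomial.eval_X,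
      MvPolynomial.eval_C]
    rw [hp, Complex.ofReal_add]

theorem gen_shift (e : ι → ℝ) (P : MvPolynomial ι ℂ) (f : X3 → ℂ) :
    (fun (y : ι → ℝ) x => Gen P f (fun i => y i + e i) x) =
      Gen (MvPolynomial.bind₁ (fun i => MvPolynomial.X i + MvPolynomial.C ((e i : ℝ) : ℂ)) P) f := by
  funext y x
  simp only [Gen]
  rw [eval_shift]

theorem gen_scale (a : ℝ) (P : MvPolynomial ι ℂ) (f : X3 → ℂ) :
    (fun (y : ι → ℝ) (x : X3) => Gen P f y (a • x)) = Gen P (fun x => f (a • x)) := rfl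

theorem smooth_scale (a : ℝ) {f : X3 → ℂ} (hf : ContDiff ℝ (⊤ : ℕ∞) f) :
    ContDiff ℝ (⊤ : ℕ∞) fun x => f (a • x) := hf.comp (contDiff_const_smul a)

theorem cs_scale {a : ℝ} (ha : a ≠ 0) {f : X3 → ℂ} (hf : CS f) : CS fun x => f (a • x) :=
  ⟨smooth_scale a hf.1, hf.2.comp_smul ha⟩

/-! ### products -/

theorem ps_mul_ps : ∀ q ∈ PS ι, ∀ r ∈ PS ι, (fun y x => q y x * r y x) ∈ PS ι := by
  intro q hq r hr
  refine span_map (mulR r) ?_ q hq
  rintro _ ⟨P, f, hf, rfl⟩
  refine span_map (mulL (Gen P f)) ?_ r hr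
  rintro _ ⟨Q, g, hg, rfl⟩
  change (fun y x => Gen P f y x * Gen Q g y x) ∈ PS ι
  rw [gen_mul]
  exact ps_gen _ (hf.mul hg)

theorem ps_mul_ss : ∀ q ∈ PS ι, ∀ r ∈ SS ι, (fun y x => q y x * r y x) ∈ SS ι := by
  intro q hq r hr
  refine span_map (mulR r) ?_ q hq
  rintro _ ⟨P, f, hf, rfl⟩
  refine span_map (mulL (Gen P f)) ?_ r hr
  rintro _ ⟨Q, g, hg, rfl⟩
  change (fun y x => Gen P f y x * Gen Q g y x) ∈ SS ι
  rw [gen_mul]
  exact ss_gen _ ⟨hf.mul hg.1, hg.2.mul_left⟩

theorem ps_x (g : X3 → ℂ) (hg : ContDiff ℝ (⊤ : ℕ∞) g) : (fun (_ : ι → ℝ) x => g x) ∈ PS ι := by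
  have e : (fun (_ : ι → ℝ) x => g x) = Gen (1 : MvPolynomial ι ℂ) g := by
    funext y x
    simp [Gen]
  rw [e]
  exact ps_gen _ hg

theorem ps_y (i : ι) : (fun (y : ι → ℝ) (_ : X3) => (y i : ℂ)) ∈ PS ι := by
  have e : (fun (y : ι → ℝ) (_ : X3) => (y i : ℂ)) = Gen (MvPolynomial.X i) (fun _ => 1) := by
    funext y x
    simp [Gen]
  rw [e]
  exact ps_gen _ contDiff_const

/-! ### derivatives in space -/

theorem smooth_all (q : Fn ι) (hq : q ∈ PS ι) : ∀ y, ContDiff ℝ (⊤ : ℕ∞) (q y) := by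
  unfold PS at hq
  induction hq using Submodule.span_induction with
  | mem h hh =>
    obtain ⟨P, f, hf, rfl⟩ := hh
    exact fun y => contDiff_const.mul hf
  | zero => exact fun y => contDiff_const
  | add a b _ _ ha hb => exact fun y => (ha y).add (hb y)
  | smul c a _ ha => exact fun y => contDiff_const.mul (ha y)

theorem sm_diff {f : X3 → ℂ} (hf : ContDiff ℝ (⊤ : ℕ∞) f) (x : X3) : DifferentiableAt ℝ f x :=
  (hf.differentiable (by simp)).differentiableAt

theorem sm_deriv {f : X3 → ℂ} (hf : ContDiff ℝ (⊤ : ℕ∞) f) (v : X3) :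
    ContDiff ℝ (⊤ : ℕ∞) fun x => fderiv ℝ f x v :=
  (hf.fderiv_right (m := (⊤ : ℕ∞)) (by exact_mod_cast le_top)).clm_apply contDiff_const

theorem dX_gen (j : Fin 3) (P : MvPolynomial ι ℂ) {f : X3 → ℂ} (hf : ContDiff ℝ (⊤ : ℕ∞) f) :
    dX j (Gen P f) = Gen P (fun x => fderiv ℝ f x (Pi.single j 1)) := by
  funext y x
  unfold dX Gen
  rw [fderiv_const_mul (sm_diff hf x)]
  rfl

theorem dX_mem (j : Fin 3) (q : Fn ι) (hq : q ∈ PS ι) : dX j q ∈ PS ι := by
  unfold PS at hq
  induction hq using Submodule.span_induction with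
  | mem h hh =>
    obtain ⟨P, f, hf, rfl⟩ := hh
    rw [dX_gen j P hf]
    exact ps_gen P (sm_deriv hf _)
  | zero =>
    have e : dX j (0 : Fn ι) = 0 := by
      funext y x
      change fderiv ℝ (fun _ : X3 => (0 : ℂ)) x (Pi.single j 1) = 0
      rw [fderiv_fun_const]
      rfl
    rw [e]
    exact Submodule.zero_mem _
  | add a b ha' hb' ha hb =>
    have e : dX j (a + b) = dX j a + dX j b := by
      funext y x
      change fderiv ℝ (a y + b y) x (Pi.single j 1) = fderiv ℝ (a y) x (Pi.single j 1) +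
        fderiv ℝ (b y) x (Pi.single j 1)
      rw [fderiv_add (sm_diff (smooth_all a ha' y) x) (sm_diff (smooth_all b hb' y) x)]
      rfl
    rw [e]
    exact Submodule.add_mem _ ha hb
  | smul c a ha' ha =>
    have e : dX j (c • a) = c • dX j a := by
      funext y x
      change fderiv ℝ (fun z => c * a y z) x (Pi.single j 1) = c * fderiv ℝ (a y) x (Pi.single j 1)
      rw [fderiv_const_mul (sm_diff (smooth_all a ha' y) x)]
      rfl
    rw [e]
    exact Submodule.smul_mem _ c ha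

/-! ### derivatives in the field coordinates -/

/-- the coordinate functions along a coordinate line -/
theorem coordDeriv (y : ι → ℝ) (i j : ι) :
    HasDerivAt (fun t : ℝ => ((Function.update y i t j : ℝ) : ℂ))
      (if j = i then (1 : ℂ) else 0) (y i) := by
  by_cases h : j = i
  · subst h
    rw [if_pos rfl]
    have h1 : (fun t : ℝ => ((Function.update y j t j : ℝ) : ℂ)) = fun t : ℝ => (t : ℂ) := by
      funext t
      rw [Function.update_self]
    rw [h1]
    exact Complex.ofRealCLM.hasDerivAt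
  · rw [if_neg h]
    have h1 : (fun t : ℝ => ((Function.update y i t j : ℝ) : ℂ)) = fun _ : ℝ => ((y j : ℝ) : ℂ) := by
      funext t
      rw [Function.update_of_ne h]
    rw [h1]
    exact hasDerivAt_const _ _

/-- polynomials along a coordinate line -/
theorem polyDeriv (i : ι) (P : MvPolynomial ι ℂ) (y : ι → ℝ) :
    HasDerivAt (fun t : ℝ => MvPolynomial.eval
        (fun j => ((Function.update y i t j : ℝ) : ℂ)) P)
      (MvPolynomial.eval (fun j => ((y j : ℝ) : ℂ)) (MvPolynomial.pderiv i P)) (y i) := by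
  induction P using MvPolynomial.induction_on with
  | C c =>
    simp only [MvPolynomial.eval_C, MvPolynomial.pderiv_C, map_zero]
    exact hasDerivAt_const _ _
  | add p q hp hq =>
    simp only [map_add]
    exact hp.add hq
  | mul_X p j hp =>
    have h1 := hp.mul (coordDeriv y i j)
    have e1 : (fun t : ℝ => MvPolynomial.eval
        (fun j => ((Function.update y i t j : ℝ) : ℂ)) (p * MvPolynomial.X j)) =
        (fun t : ℝ => MvPolynomial.eval (fun j => ((Function.update y i t j : ℝ) : ℂ)) p) *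
          fun t : ℝ => ((Function.update y i t j : ℝ) : ℂ) := by
      funext t
      rw [Pi.mul_apply, map_mul, MvPolynomial.eval_X]
    rw [e1]
    refine h1.congr_deriv ?_
    rw [Derivation.leibniz, map_add, smul_eq_mul, smul_eq_mul, map_mul, map_mul,
      MvPolynomial.eval_X, MvPolynomial.pderiv_X, Function.update_eq_self]
    by_cases h : j = i
    · subst h
      rw [if_pos rfl, Pi.single_eq_same, map_one]
      ring
    · rw [if_neg h, Pi.single_eq_of_ne h, map_zero]
      ring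

theorem exDeriv (i : ι) (q : Fn ι) (hq : q ∈ PS ι) :
    ∃ q' ∈ PS ι, ∀ y x, HasDerivAt (fun t : ℝ => q (Function.update y i t) x) (q' y x) (y i) := by
  unfold PS at hq
  induction hq using Submodule.span_induction with
  | mem h hh =>
    obtain ⟨P, f, hf, rfl⟩ := hh
    refine ⟨Gen (MvPolynomial.pderiv i P) f, ps_gen _ hf, fun y x => ?_⟩
    exact (polyDeriv i P y).mul_const (f x)
  | zero => exact ⟨0, Submodule.zero_mem _, fun y x => hasDerivAt_const _ _⟩
  | add a b _ _ ha hb =>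
    obtain ⟨a', ha', hda⟩ := ha
    obtain ⟨b', hb', hdb⟩ := hb
    exact ⟨a' + b', Submodule.add_mem _ ha' hb', fun y x => (hda y x).add (hdb y x)⟩
  | smul c a _ ha =>
    obtain ⟨a', ha', hda⟩ := ha
    exact ⟨c • a', Submodule.smul_mem _ c ha', fun y x => (hda y x).const_mul c⟩

theorem dY_all (q : Fn ι) (hq : q ∈ PS ι) (i : ι) : dY i q ∈ PS ι ∧
    ∀ y x, HasDerivAt (fun t : ℝ => q (Function.update y i t) x) (dY i q y x) (y i) := by
  obtain ⟨q', hq', hd⟩ := exDeriv i q hq
  have he : dY i q = q' := by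
    funext y x
    exact (hd y x).deriv
  rw [he]
  exact ⟨hq', hd⟩

/-! ### bounds -/

omit [DecidableEq ι] in
theorem prod_nonneg' (m : ℕ) (y : ι → ℝ) : 0 ≤ ∏ i, (1 + |y i|) ^ m :=
  Finset.prod_nonneg fun i _ => pow_nonneg (by have := abs_nonneg (y i); linarith) m

omit [DecidableEq ι] in
/-- Polynomial growth of polynomials. -/
theorem poly_bound (P : MvPolynomial ι ℂ) :
    ∃ (C : ℝ) (m : ℕ), 0 ≤ C ∧ ∀ y : ι → ℝ,
      ‖MvPolynomial.eval (fun i => ((y i : ℝ) : ℂ)) P‖ ≤ C * ∏ i, (1 + |y i|) ^ m := by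
  classical
  induction P using MvPolynomial.induction_on with
  | C a =>
    refine ⟨‖a‖, 0, norm_nonneg _, fun y => ?_⟩
    simp
  | add p q hp hq =>
    obtain ⟨C, m, hC, hp⟩ := hp
    obtain ⟨C', m', hC', hq⟩ := hq
    refine ⟨C + C', max m m', add_nonneg hC hC', fun y => ?_⟩
    have h1 := Pool.Agent.Loc.prod_mono (le_max_left m m') y
    have h2 := Pool.Agent.Loc.prod_mono (le_max_right m m') y
    rw [map_add]
    refine (norm_add_le _ _).trans ?_
    have h3 := (hp y).trans (mul_le_mul_of_nonneg_left h1 hC)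
    have h4 := (hq y).trans (mul_le_mul_of_nonneg_left h2 hC')
    calc _ ≤ _ := add_le_add h3 h4
      _ = _ := by ring
  | mul_X p i hp =>
    obtain ⟨C, m, hC, hp⟩ := hp
    obtain ⟨-, C', m', hC', hc⟩ := Pool.Agent.Loc.PB.coord (n := ι) i
    refine ⟨C * C', m + m', mul_nonneg hC hC', fun y => ?_⟩
    rw [map_mul, MvPolynomial.eval_X, norm_mul, Complex.norm_real, Real.norm_eq_abs]
    calc _ ≤ (C * ∏ i, (1 + |y i|) ^ m) * (C' * ∏ i, (1 + |y i|) ^ m') :=
          mul_le_mul (hp y) (hc y) (abs_nonneg _) (mul_nonneg hC (prod_nonneg' m y))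
      _ = C * C' * ∏ i, (1 + |y i|) ^ (m + m') := by
          simp only [pow_add, Finset.prod_mul_distrib]
          ring

omit [Fintype ι] [DecidableEq ι] in
theorem poly_cont (P : MvPolynomial ι ℂ) :
    Continuous fun y : ι → ℝ => MvPolynomial.eval (fun i => ((y i : ℝ) : ℂ)) P := by
  induction P using MvPolynomial.induction_on with
  | C a => simp only [MvPolynomial.eval_C]; exact continuous_const
  | add p q hp hq => simp only [map_add]; exact hp.add hq
  | mul_X p i hp =>
    simp only [map_mul, MvPolynomial.eval_X]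
    exact hp.mul (Complex.continuous_ofReal.comp (continuous_apply i))

theorem ps_cont (q : Fn ι) (hq : q ∈ PS ι) : Continuous fun z : (ι → ℝ) × X3 => q z.1 z.2 := by
  unfold PS at hq
  induction hq using Submodule.span_induction with
  | mem h hh =>
    obtain ⟨P, f, hf, rfl⟩ := hh
    exact ((poly_cont P).comp continuous_fst).mul (hf.continuous.comp continuous_snd)
  | zero => exact continuous_const
  | add a b _ _ ha hb => exact ha.add hb
  | smul c a _ ha => exact continuous_const.mul ha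

theorem ps_bound (q : Fn ι) (hq : q ∈ PS ι) (R : ℝ) : ∃ (C : ℝ) (m : ℕ), 0 ≤ C ∧
    ∀ y x, ‖x‖ ≤ R → ‖q y x‖ ≤ C * ∏ i, (1 + |y i|) ^ m := by
  unfold PS at hq
  induction hq using Submodule.span_induction with
  | mem h hh =>
    obtain ⟨P, f, hf, rfl⟩ := hh
    obtain ⟨C, m, hC, hP⟩ := poly_bound P
    obtain ⟨B, hB⟩ := (isCompact_closedBall (0 : X3) R).exists_bound_of_continuousOn
      hf.continuous.continuousOn
    refine ⟨C * max B 0, m, mul_nonneg hC (le_max_right _ _), fun y x hx => ?_⟩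
    have h1 : ‖f x‖ ≤ max B 0 := (hB x (mem_closedBall_zero_iff.2 hx)).trans (le_max_left _ _)
    unfold Gen
    rw [norm_mul]
    calc _ ≤ (C * ∏ i, (1 + |y i|) ^ m) * max B 0 :=
          mul_le_mul (hP y) h1 (norm_nonneg _) (mul_nonneg hC (prod_nonneg' m y))
      _ = _ := by ring
  | zero =>
    refine ⟨0, 0, le_refl _, fun y x _ => ?_⟩
    simp
  | add q r _ _ hq hr =>
    obtain ⟨C, m, hC, hq⟩ := hq
    obtain ⟨C', m', hC', hr⟩ := hr
    refine ⟨C + C', max m m', add_nonneg hC hC', fun y x hx => ?_⟩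
    have h1 := Pool.Agent.Loc.prod_mono (le_max_left m m') y
    have h2 := Pool.Agent.Loc.prod_mono (le_max_right m m') y
    refine (norm_add_le _ _).trans ?_
    have h3 := (hq y x hx).trans (mul_le_mul_of_nonneg_left h1 hC)
    have h4 := (hr y x hx).trans (mul_le_mul_of_nonneg_left h2 hC')
    calc _ ≤ _ := add_le_add h3 h4
      _ = _ := by ring
  | smul a q _ hq =>
    obtain ⟨C, m, hC, hq⟩ := hq
    refine ⟨‖a‖ * C, m, mul_nonneg (norm_nonneg _) hC, fun y x hx => ?_⟩
    simp only [Pi.smul_apply, smul_eq_mul, norm_mul]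
    calc _ ≤ ‖a‖ * (C * ∏ i, (1 + |y i|) ^ m) :=
          mul_le_mul_of_nonneg_left (hq y x hx) (norm_nonneg _)
      _ = _ := by ring

/-! ### shift and scaling -/

theorem ps_shift (e : ι → ℝ) : ∀ q ∈ PS ι, (fun y x => q (fun i => y i + e i) x) ∈ PS ι := by
  refine fun q hq => span_map (S := PS ι) (cmp (fun y i => y i + e i) (fun x => x)) ?_ q hq
  rintro _ ⟨P, f, hf, rfl⟩
  have h := ps_gen (MvPolynomial.bind₁ (fun i => MvPolynomial.X i + MvPolynomial.C ((e i : ℝ) : ℂ)) P) hf
  rw [← gen_shift] at h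
  exact h

theorem ss_shift (e : ι → ℝ) : ∀ q ∈ SS ι, (fun y x => q (fun i => y i + e i) x) ∈ SS ι := by
  refine fun q hq => span_map (S := SS ι) (cmp (fun y i => y i + e i) (fun x => x)) ?_ q hq
  rintro _ ⟨P, f, hf, rfl⟩
  have h := ss_gen (MvPolynomial.bind₁ (fun i => MvPolynomial.X i + MvPolynomial.C ((e i : ℝ) : ℂ)) P) hf
  rw [← gen_shift] at h
  exact h

theorem ps_scale (a : ℝ) : ∀ q ∈ PS ι, (fun y x => q y (a • x)) ∈ PS ι := by
  refine fun q hq => span_map (S := PS ι) (cmp (fun y => y) (fun x => a • x)) ?_ q hq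
  rintro _ ⟨P, f, hf, rfl⟩
  exact ps_gen P (smooth_scale a hf)

theorem ss_scale (a : ℝ) (ha : a ≠ 0) : ∀ q ∈ SS ι, (fun y x => q y (a • x)) ∈ SS ι := by
  refine fun q hq => span_map (S := SS ι) (cmp (fun y => y) (fun x => a • x)) ?_ q hq
  rintro _ ⟨P, f, hf, rfl⟩
  exact ss_gen P (cs_scale ha hf)

/-! ### the row -/

theorem psa : PsaStmt := by
  intro ι _ _
  exact ⟨ps_mul_ps, ps_mul_ss, ps_x, ps_y, fun q hq j => ⟨smooth_all q hq, dX_mem j q hq⟩,
    fun q hq i => dY_all q hq i, fun e => ⟨ps_shift e, ss_shift e⟩,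
    fun a ha => ⟨ps_scale a, ss_scale a ha⟩, fun q hq => ⟨ps_cont q hq, ps_bound q hq⟩⟩

end Pool.Agent.FTU.H73
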