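import Pool.Agent.FTU.Stmts

/-!
# FTU squad, row TRG: every rotation of a trigonometric polynomial is the field of a displacement
-/

set_option autoImplicit false

open MeasureTheory Complex ProbabilityTheory

noncomputable section

namespace Pool.Agent.FTU.H73.T

open Pool.Agent.Helper49_Pauli
open Pool.Agent.MBX
open Pool.Agent.Helper75_Pauli.Half

/-! ### derivatives -/

/-- The scalar product with `q` as a continuous linear map. -/
def dotL (q : X3) : X3 →L[ℝ] ℝ := ∑ j, q j • ContinuousLinearMap.proj (R := ℝ) (φ := fun _ : Fin 3 => ℝ) j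

theorem dotL_apply (q x : X3) : dotL q x = dot q x := by
  unfold dotL dot
  rw [_root_.sum_apply]
  rfl

theorem dotL_single (q : X3) (a : Fin 3) : dotL q (Pi.single a 1) = q a := by
  rw [dotL_apply]
  unfold dot
  rw [Finset.sum_eq_single a]
  · rw [Pi.single_eq_same, mul_one]
  · intro b _ hb
    rw [Pi.single_eq_of_ne hb, mul_zero]
  · intro h
    exact absurd (Finset.mem_univ _) h

theorem hasF (q : X3) (u v : ℝ) (x : X3) :
    HasFDerivAt (fun z : X3 => u * Real.cos (dot q z) - v * Real.sin (dot q z))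
      (u • (-Real.sin (dot q x)) • dotL q - v • Real.cos (dot q x) • dotL q) x := by
  have h0 : HasFDerivAt (fun z : X3 => dot q z) (dotL q) x := by
    have h1 := (dotL q).hasFDerivAt (x := x)
    have e : (fun z : X3 => dot q z) = dotL q := by
      funext z
      rw [dotL_apply]
    rw [e]
    exact h1
  exact (h0.cos.const_mul u).sub (h0.sin.const_mul v)

theorem pd_sum (B : Finset (Fin 3 → ℤ)) (q : (Fin 3 → ℤ) → X3) (u v : (Fin 3 → ℤ) → ℝ) (a : Fin 3)
    (x : X3) :
    pd a (fun z => ∑ n ∈ B, (u n * Real.cos (dot (q n) z) - v n * Real.sin (dot (q n) z))) x =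
      ∑ n ∈ B, (-(u n * q n a * Real.sin (dot (q n) x)) - v n * q n a * Real.cos (dot (q n) x)) := by
  unfold pd
  have h := HasFDerivAt.fun_sum (u := B) (fun n _ => hasF (q n) (u n) (v n) x)
  rw [h.fderiv, _root_.sum_apply]
  refine Finset.sum_congr rfl fun n _ => ?_
  simp only [_root_.sub_apply, _root_.smul_apply, dotL_single, smul_eq_mul]
  ring

theorem re_term (g : ℂ) (t : ℝ) : (g * cexp (I * (t : ℂ))).re = g.re * Real.cos t - g.im * Real.sin t := by
  have h1 : (cexp (I * (t : ℂ))).re = Real.cos t := by rw [mul_comm, Complex.exp_ofReal_mul_I_re]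
  have h2 : (cexp (I * (t : ℂ))).im = Real.sin t := by rw [mul_comm, Complex.exp_ofReal_mul_I_im]
  rw [Complex.mul_re, h1, h2]

theorem curl_eq (B : Finset (Fin 3 → ℤ)) (q : (Fin 3 → ℤ) → X3) (g : (Fin 3 → ℤ) → Fin 3 → ℂ) (x : X3)
    (c : Fin 3) :
    curl (fun x j => (∑ n ∈ B, g n j * cexp (I * (dot (q n) x : ℂ))).re) x c =
      ∑ n ∈ B, (-(crs (q n) (fun j => (g n j).im) c * Real.cos (dot (q n) x)) -
        crs (q n) (fun j => (g n j).re) c * Real.sin (dot (q n) x)) := by
  have e : (fun (x : X3) (j : Fin 3) => (∑ n ∈ B, g n j * cexp (I * (dot (q n) x : ℂ))).re) =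
      fun x j => ∑ n ∈ B, ((g n j).re * Real.cos (dot (q n) x) - (g n j).im * Real.sin (dot (q n) x)) := by
    funext x j
    rw [Complex.re_sum]
    exact Finset.sum_congr rfl fun n _ => re_term _ _
  rw [e]
  unfold curl crs
  fin_cases c
  · simp only [Fin.zero_eta, Fin.isValue, Matrix.cons_val_zero]
    rw [pd_sum B q (fun n => (g n 2).re) (fun n => (g n 2).im) 1 x,
      pd_sum B q (fun n => (g n 1).re) (fun n => (g n 1).im) 2 x, ← Finset.sum_sub_distrib]
    refine Finset.sum_congr rfl fun n _ => ?_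
    ring
  · simp only [Fin.mk_one, Fin.isValue, Matrix.cons_val_one, Matrix.cons_val_zero]
    rw [pd_sum B q (fun n => (g n 0).re) (fun n => (g n 0).im) 2 x,
      pd_sum B q (fun n => (g n 2).re) (fun n => (g n 2).im) 0 x, ← Finset.sum_sub_distrib]
    refine Finset.sum_congr rfl fun n _ => ?_
    ring
  · simp only [Fin.reduceFinMk, Fin.isValue, Matrix.cons_val]
    rw [pd_sum B q (fun n => (g n 1).re) (fun n => (g n 1).im) 0 x,
      pd_sum B q (fun n => (g n 0).re) (fun n => (g n 0).im) 1 x, ← Finset.sum_sub_distrib]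
    refine Finset.sum_congr rfl fun n _ => ?_
    ring

/-! ### vectors -/

theorem dot_crs (q v : X3) : dot q (crs q v) = 0 := by
  unfold dot crs
  simp only [Fin.sum_univ_three, Matrix.cons_val_zero, Matrix.cons_val_one, Matrix.cons_val]
  ring

theorem dot_add (q v w : X3) : dot q (v + w) = dot q v + dot q w := by
  simp only [dot, Fin.sum_univ_three, Pi.add_apply]
  ring

theorem dot_sub (q v w : X3) : dot q (v - w) = dot q v - dot q w := by
  simp only [dot, Fin.sum_univ_three, Pi.sub_apply]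
  ring

theorem dot_negr (q v : X3) : dot q (-v) = -dot q v := by
  simp only [dot, Fin.sum_univ_three, Pi.neg_apply]
  ring

theorem sq_nonneg' (v : X3) : 0 ≤ Pool.Agent.Helper49_Pauli.sq v := Finset.sum_nonneg fun _ _ => sq_nonneg _

theorem sq_add_le (v w : X3) : Pool.Agent.Helper49_Pauli.sq (v + w) ≤
    2 * Pool.Agent.Helper49_Pauli.sq v + 2 * Pool.Agent.Helper49_Pauli.sq w := by
  simp only [Pool.Agent.Helper49_Pauli.sq, Fin.sum_univ_three, Pi.add_apply]
  nlinarith [sq_nonneg (v 0 - w 0), sq_nonneg (v 1 - w 1), sq_nonneg (v 2 - w 2)]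

theorem sq_sub_le (v w : X3) : Pool.Agent.Helper49_Pauli.sq (v - w) ≤
    2 * Pool.Agent.Helper49_Pauli.sq v + 2 * Pool.Agent.Helper49_Pauli.sq w := by
  simp only [Pool.Agent.Helper49_Pauli.sq, Fin.sum_univ_three, Pi.sub_apply]
  nlinarith [sq_nonneg (v 0 + w 0), sq_nonneg (v 1 + w 1), sq_nonneg (v 2 + w 2)]

theorem sq_crs_le (q v : X3) : Pool.Agent.Helper49_Pauli.sq (crs q v) ≤
    Pool.Agent.Helper49_Pauli.sq q * Pool.Agent.Helper49_Pauli.sq v := by
  simp only [Pool.Agent.Helper49_Pauli.sq, Fin.sum_univ_three, crs, Matrix.cons_val_zero, Matrix.cons_val_one,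
    Matrix.cons_val]
  nlinarith [sq_nonneg (q 0 * v 0 + q 1 * v 1 + q 2 * v 2)]

/-! ### the momenta -/

theorem finite_momenta {cut L : ℝ} (hL : 0 < L) : {n : Fin 3 → ℤ | n ≠ 0 ∧ freq L n < cut}.Finite := by
  obtain ⟨N, hN⟩ := exists_nat_gt (L * cut / (2 * Real.pi))
  refine (Set.finite_Icc (fun _ : Fin 3 => -(N : ℤ)) (fun _ => (N : ℤ))).subset ?_
  rintro n ⟨-, hn⟩
  have hpi := Real.pi_pos
  have h : ∀ j, |(n j : ℝ)| ≤ N := by
    intro j
    have h1 : (wave L n j) ^ 2 ≤ Pool.Agent.Helper49_Pauli.sq (wave L n) :=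
      Finset.single_le_sum (f := fun j => wave L n j ^ 2) (fun i _ => sq_nonneg _) (Finset.mem_univ j)
    have h2 : |wave L n j| ≤ freq L n := by
      rw [← Real.sqrt_sq_eq_abs]
      exact Real.sqrt_le_sqrt h1
    have h3 : |wave L n j| = 2 * Real.pi / L * |(n j : ℝ)| := by
      unfold wave
      rw [abs_mul, abs_of_pos (by positivity : 0 < 2 * Real.pi / L)]
    have h4 : 2 * Real.pi / L * |(n j : ℝ)| < cut := by
      rw [← h3]
      exact lt_of_le_of_lt h2 hn
    have h5 : |(n j : ℝ)| < L * cut / (2 * Real.pi) := by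
      rw [lt_div_iff₀ (by positivity)]
      rw [div_mul_eq_mul_div, div_lt_iff₀ hL] at h4
      linarith
    linarith
  constructor
  · intro j
    have h1 := (abs_le.1 (h j)).1
    show -(N : ℤ) ≤ n j
    exact_mod_cast h1
  · intro j
    have h1 := (abs_le.1 (h j)).2
    show n j ≤ (N : ℤ)
    exact_mod_cast h1

theorem mem_momenta' {cut L : ℝ} (hL : 0 < L) {n : Fin 3 → ℤ} (h0 : n ≠ 0) (h : freq L n < cut) :
    n ∈ momenta cut L := by
  unfold momenta
  rw [dif_pos (finite_momenta hL), Set.Finite.mem_toFinset]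
  exact ⟨h0, h⟩

/-- The scaled momentum. -/
def qv (cut L : ℝ) (n : Fin 3 → ℤ) : X3 := fun j => 2 * Real.pi / (L * cut) * (n j : ℝ)

theorem wave_qv {cut L : ℝ} (hc : 0 < cut) (hL : 0 < L) (n : Fin 3 → ℤ) (j : Fin 3) :
    wave L n j = cut * qv cut L n j := by
  unfold wave qv
  field_simp

theorem qv_neg (cut L : ℝ) (n : Fin 3 → ℤ) : qv cut L (-n) = -qv cut L n := by
  funext j
  simp [qv]

theorem qv_zero (cut L : ℝ) : qv cut L 0 = 0 := by
  funext j
  simp [qv]

theorem sq_wave {cut L : ℝ} (hc : 0 < cut) (hL : 0 < L) (n : Fin 3 → ℤ) :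
    Pool.Agent.Helper49_Pauli.sq (wave L n) = cut ^ 2 * Pool.Agent.Helper49_Pauli.sq (qv cut L n) := by
  simp only [Pool.Agent.Helper49_Pauli.sq, Fin.sum_univ_three, wave_qv hc hL]
  ring

theorem freq_sq {cut L : ℝ} (hc : 0 < cut) (hL : 0 < L) (n : Fin 3 → ℤ) :
    freq L n ^ 2 = cut ^ 2 * Pool.Agent.Helper49_Pauli.sq (qv cut L n) := by
  unfold freq
  rw [Real.sq_sqrt (sq_nonneg' _), sq_wave hc hL]

theorem freq_pos {cut L : ℝ} {n : Fin 3 → ℤ} (hL : 0 < L) (hn : n ∈ momenta cut L) : 0 < freq L n :=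
  Real.sqrt_pos.2 (sqn_wave_pos hL (mem_momenta hn).1)

theorem dot_wave {cut L : ℝ} (hc : 0 < cut) (hL : 0 < L) (n : Fin 3 → ℤ) (v : X3) :
    dot (wave L n) v = cut * dot (qv cut L n) v := by
  simp only [dot, Fin.sum_univ_three, wave_qv hc hL]
  ring

/-- Sum over half of the momenta. -/
theorem fold {cut L : ℝ} (f : (Fin 3 → ℤ) → ℝ) :
    ∑ n ∈ momenta cut L, f n = ∑ n ∈ momenta cut L, (if Hp n then f n + f (-n) else 0) ∧
    ∑ n ∈ momenta cut L, f n = ∑ n ∈ momenta cut L, (if Hp n then 0 else f n + f (-n)) := by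
  have h := half_sum (cut := cut) (L := L) (fun n => f n + f (-n))
    (fun n => by simp only [neg_neg]; ring)
  have h2 : ∑ n ∈ momenta cut L, f (-n) = ∑ n ∈ momenta cut L, f n := by
    refine Finset.sum_nbij' (fun n => -n) (fun n => -n) ?_ ?_ ?_ ?_ ?_
    · intro n hn; exact neg_mem_momenta hn
    · intro n hn; exact neg_mem_momenta hn
    · intro n _; simp
    · intro n _; simp
    · intro n _; rfl
  have h3 : 1 / 2 * ∑ n ∈ momenta cut L, (f n + f (-n)) = ∑ n ∈ momenta cut L, f n := by
    rw [Finset.sum_add_distrib, h2]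
    ring
  exact ⟨by rw [h.1, h3], by rw [h.2, h3]⟩

/-! ### the displacement -/

section main

variable {cut L : ℝ} (P : Polarization L) (B : Finset (Fin 3 → ℤ)) (g : (Fin 3 → ℤ) → Fin 3 → ℂ)

/-- The coefficients of the cosines. -/
def cA (cut L : ℝ) (n : Fin 3 → ℤ) : X3 :=
  if n ∈ B then -crs (qv cut L n) (fun j => (g n j).im) else 0

/-- The coefficients of the sines. -/
def cB (cut L : ℝ) (n : Fin 3 → ℤ) : X3 :=
  if n ∈ B then crs (qv cut L n) (fun j => (g n j).re) else 0

theorem dot_cA (n : Fin 3 → ℤ) : dot (qv cut L n) (cA B g cut L n) = 0 := by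
  unfold cA
  split_ifs
  · rw [dot_negr, dot_crs, neg_zero]
  · simp [dot]

theorem dot_cB (n : Fin 3 → ℤ) : dot (qv cut L n) (cB B g cut L n) = 0 := by
  unfold cB
  split_ifs
  · rw [dot_crs]
  · simp [dot]

theorem dot_cA' (n : Fin 3 → ℤ) : dot (qv cut L n) (cA B g cut L (-n)) = 0 := by
  have h := dot_cA B g (cut := cut) (L := L) (-n)
  rw [qv_neg, dot_neg, neg_eq_zero] at h
  exact h

theorem dot_cB' (n : Fin 3 → ℤ) : dot (qv cut L n) (cB B g cut L (-n)) = 0 := by
  have h := dot_cB B g (cut := cut) (L := L) (-n)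
  rw [qv_neg, dot_neg, neg_eq_zero] at h
  exact h

/-- The amplitudes of the modes. -/
def amp (cut : ℝ) (n : Fin 3 → ℤ) (l : Fin 2) : ℝ :=
  if Hp n then dot (P.e n l) (cA B g cut L n + cA B g cut L (-n))
  else -dot (P.e n l) (cB B g cut L n - cB B g cut L (-n))

theorem amp_field (hc : 0 < cut) (hL : 0 < L) {n : Fin 3 → ℤ} (hn : n ≠ 0) (x : X3) (j : Fin 3) :
    ∑ l, amp P B g cut n l * (Real.cos (dot (qv cut L n) x - Pool.Agent.Helper75_Pauli.Half.th n) * P.e n l j) =
      (if Hp n then cA B g cut L n j * Real.cos (dot (qv cut L n) x) +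
        cA B g cut L (-n) j * Real.cos (dot (qv cut L (-n)) x) else 0) +
      (if Hp n then 0 else -(cB B g cut L n j * Real.sin (dot (qv cut L n) x)) +
        -(cB B g cut L (-n) j * Real.sin (dot (qv cut L (-n)) x))) := by
  by_cases h : Hp n
  · have hw : dot (wave L n) (cA B g cut L n + cA B g cut L (-n)) = 0 := by
      rw [dot_wave hc hL, dot_add, dot_cA, dot_cA', add_zero, mul_zero]
    have h1 := complete P hL hn _ hw j
    simp only [amp, Pool.Agent.Helper75_Pauli.Half.th, if_pos h, sub_zero, add_zero]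
    rw [qv_neg, dot_neg, Real.cos_neg]
    have e : ∀ l, dot (P.e n l) (cA B g cut L n + cA B g cut L (-n)) *
        (Real.cos (dot (qv cut L n) x) * P.e n l j) = Real.cos (dot (qv cut L n) x) *
        (dot (P.e n l) (cA B g cut L n + cA B g cut L (-n)) * P.e n l j) := fun l => by ring
    rw [Finset.sum_congr rfl fun l _ => e l, ← Finset.mul_sum, h1, Pi.add_apply]
    ring
  · have hw : dot (wave L n) (cB B g cut L n - cB B g cut L (-n)) = 0 := by
      rw [dot_wave hc hL, dot_sub, dot_cB, dot_cB', sub_zero, mul_zero]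
    have h1 := complete P hL hn _ hw j
    simp only [amp, Pool.Agent.Helper75_Pauli.Half.th, if_neg h, zero_add]
    rw [qv_neg, dot_neg, Real.sin_neg, Real.cos_sub_pi_div_two]
    have e : ∀ l, -dot (P.e n l) (cB B g cut L n - cB B g cut L (-n)) *
        (Real.sin (dot (qv cut L n) x) * P.e n l j) = -Real.sin (dot (qv cut L n) x) *
        (dot (P.e n l) (cB B g cut L n - cB B g cut L (-n)) * P.e n l j) := fun l => by ring
    rw [Finset.sum_congr rfl fun l _ => e l, ← Finset.mul_sum, h1, Pi.sub_apply]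
    ring

theorem amp_sq (hc : 0 < cut) (hL : 0 < L) {n : Fin 3 → ℤ} (hn : n ≠ 0) :
    ∑ l, amp P B g cut n l ^ 2 ≤
      (if Hp n then 2 * Pool.Agent.Helper49_Pauli.sq (cA B g cut L n) +
        2 * Pool.Agent.Helper49_Pauli.sq (cA B g cut L (-n)) else 0) +
      (if Hp n then 0 else 2 * Pool.Agent.Helper49_Pauli.sq (cB B g cut L n) +
        2 * Pool.Agent.Helper49_Pauli.sq (cB B g cut L (-n))) := by
  by_cases h : Hp n
  · have hw : dot (wave L n) (cA B g cut L n + cA B g cut L (-n)) = 0 := by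
      rw [dot_wave hc hL, dot_add, dot_cA, dot_cA', add_zero, mul_zero]
    have h1 := comp3 hL P hn _ hw 1
    simp only [amp, if_pos h, add_zero]
    simp only [one_mul] at h1
    rw [h1]
    exact sq_add_le _ _
  · have hw : dot (wave L n) (cB B g cut L n - cB B g cut L (-n)) = 0 := by
      rw [dot_wave hc hL, dot_sub, dot_cB, dot_cB', sub_zero, mul_zero]
    have h1 := comp3 hL P hn _ hw 1
    simp only [amp, if_neg h, zero_add, neg_sq]
    simp only [one_mul] at h1
    rw [h1]
    exact sq_sub_le _ _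

theorem sum_B (hc : 0 < cut) (hL : 0 < L) (hB : ∀ n ∈ B, Pool.Agent.Helper49_Pauli.sq (qv cut L n) < 1)
    (f : (Fin 3 → ℤ) → ℝ) (h0 : f 0 = 0) (h1 : ∀ n, n ∉ B → f n = 0) :
    ∑ n ∈ B, f n = ∑ n ∈ momenta cut L, f n := by
  classical
  have e1 : ∑ n ∈ B, f n = ∑ n ∈ B ∪ momenta cut L, f n :=
    Finset.sum_subset Finset.subset_union_left fun n _ hn => h1 n hn
  have e2 : ∑ n ∈ momenta cut L, f n = ∑ n ∈ B ∪ momenta cut L, f n := by
    refine Finset.sum_subset Finset.subset_union_right fun n hn hn' => ?_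
    by_cases hz : n = 0
    · rw [hz, h0]
    · have hnB : n ∈ B := by
        rcases Finset.mem_union.1 hn with h | h
        · exact h
        · exact absurd h hn'
      exfalso
      apply hn'
      refine mem_momenta' hL hz ?_
      have h2 := freq_sq hc hL n
      have h3 := hB n hnB
      have h4 : freq L n ^ 2 < cut ^ 2 := by
        rw [h2]
        have : 0 < cut ^ 2 := by positivity
        nlinarith
      exact lt_of_pow_lt_pow_left₀ 2 hc.le h4
  rw [e1, e2]

theorem c_pos {alpha : ℝ} (ha : 0 < alpha) (hc : 0 < cut) (hL : 0 < L) (i : Mode cut L) :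
    0 < (msys alpha P).c i := by
  change 0 < Real.sqrt alpha * (1 / Real.sqrt (L ^ 3 * freq L i.1)) / cut
  have h1 := freq_pos hL i.1.2
  have h2 : 0 < Real.sqrt alpha := Real.sqrt_pos.2 ha
  have h3 : 0 < Real.sqrt (L ^ 3 * freq L i.1) := Real.sqrt_pos.2 (by positivity)
  positivity

theorem c_sq {alpha : ℝ} (ha : 0 < alpha) (hc : 0 < cut) (hL : 0 < L) (i : Mode cut L) :
    (msys alpha P).w i / (msys alpha P).c i ^ 2 =
      (L * cut) ^ 3 / alpha * Pool.Agent.Helper49_Pauli.sq (qv cut L i.1) := by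
  change freq L i.1 / cut / (Real.sqrt alpha * (1 / Real.sqrt (L ^ 3 * freq L i.1)) / cut) ^ 2 = _
  have h1 := freq_pos hL i.1.2
  have h2 : Real.sqrt alpha ^ 2 = alpha := Real.sq_sqrt ha.le
  have h3 : Real.sqrt (L ^ 3 * freq L i.1) ^ 2 = L ^ 3 * freq L i.1 := Real.sq_sqrt (by positivity)
  rw [div_pow, mul_pow, div_pow, h2, h3, one_pow]
  have h4 := freq_sq hc hL i.1
  have h5 : Pool.Agent.Helper49_Pauli.sq (qv cut L i.1) = freq L i.1 ^ 2 / cut ^ 2 := by
    rw [h4]
    field_simp
  rw [h5]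
  field_simp

end main

end Pool.Agent.FTU.H73.T

namespace Pool.Agent.FTU.H73

open Pool.Agent.Helper49_Pauli
open Pool.Agent.MBX
open Pool.Agent.Helper75_Pauli.Half
open T

theorem trg : TrgStmt := by
  intro alpha cut L P ha hc hL B g hB
  have hB' : ∀ n ∈ B, Pool.Agent.Helper49_Pauli.sq (qv cut L n) < 1 := hB
  refine ⟨fun i => amp P B g cut i.1 i.2 / (msys alpha P).c i, ?_, ?_⟩
  · intro x
    funext c
    have hcurl := curl_eq B (qv cut L) g x c
    change _ = curl (fun x j => (∑ n ∈ B, g n j * cexp (I * (dot (qv cut L n) x : ℂ))).re) x c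
    rw [hcurl]
    have hk : ∀ i : Mode cut L, (msys alpha P).k i = qv cut L i.1 := by
      intro i
      funext j
      change wave L i.1 j / cut = qv cut L i.1 j
      rw [wave_qv hc hL]
      field_simp
    have e1 : (msys (cut := cut) alpha P).fld (fun i => amp P B g cut i.1 i.2 / (msys alpha P).c i) x c =
        ∑ i : Mode cut L, amp P B g cut i.1 i.2 *
          (Real.cos (dot (qv cut L i.1) x - Pool.Agent.Helper75_Pauli.Half.th i.1) * P.e i.1 i.2 c) := by
      unfold Sys.fld
      refine Finset.sum_congr rfl fun i _ => ?_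
      rw [hk i]
      have hci := (c_pos P ha hc hL i).ne'
      change _ / _ * (_ * Real.cos (_ - Pool.Agent.Helper75_Pauli.Half.th i.1) * P.e i.1 i.2 c) = _
      field_simp
    rw [e1, sum_mode (cut := cut) (L := L) (fun n l => amp P B g cut n l *
      (Real.cos (dot (qv cut L n) x - Pool.Agent.Helper75_Pauli.Half.th n) * P.e n l c))]
    rw [Finset.sum_congr rfl fun n hn => amp_field P B g hc hL (mem_momenta hn).1 x c]
    rw [Finset.sum_add_distrib]
    rw [← (fold (cut := cut) (L := L) fun n => cA B g cut L n c * Real.cos (dot (qv cut L n) x)).1,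
      ← (fold (cut := cut) (L := L) fun n => -(cB B g cut L n c * Real.sin (dot (qv cut L n) x))).2,
      ← Finset.sum_add_distrib]
    have e2 : ∀ n ∈ B, -(crs (qv cut L n) (fun j => (g n j).im) c * Real.cos (dot (qv cut L n) x)) -
        crs (qv cut L n) (fun j => (g n j).re) c * Real.sin (dot (qv cut L n) x) =
        cA B g cut L n c * Real.cos (dot (qv cut L n) x) +
          -(cB B g cut L n c * Real.sin (dot (qv cut L n) x)) := by
      intro n hn
      unfold cA cB
      rw [if_pos hn, if_pos hn, Pi.neg_apply]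
      ring
    rw [Finset.sum_congr rfl e2]
    symm
    refine sum_B B hc hL hB' _ ?_ ?_
    · have z1 : cA B g cut L 0 c = 0 := by
        unfold cA
        split_ifs
        · rw [qv_zero]
          fin_cases c <;> simp [crs]
        · rfl
      have z2 : cB B g cut L 0 c = 0 := by
        unfold cB
        split_ifs
        · rw [qv_zero]
          fin_cases c <;> simp [crs]
        · rfl
      rw [z1, z2]
      ring
    · intro n hn
      unfold cA cB
      rw [if_neg hn, if_neg hn]
      simp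
  · have e1 : ∑ i : Mode cut L, (msys alpha P).w i * (amp P B g cut i.1 i.2 / (msys alpha P).c i) ^ 2 =
        ∑ i : Mode cut L, (L * cut) ^ 3 / alpha * (Pool.Agent.Helper49_Pauli.sq (qv cut L i.1) *
          amp P B g cut i.1 i.2 ^ 2) := by
      refine Finset.sum_congr rfl fun i _ => ?_
      have h := c_sq P ha hc hL i
      rw [div_pow, mul_div_assoc', mul_comm ((msys alpha P).w i), mul_div_assoc, h]
      ring
    have hK : 0 ≤ (L * cut) ^ 3 / alpha := by positivity
    rw [e1, sum_mode (cut := cut) (L := L) (fun n l => (L * cut) ^ 3 / alpha *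
      (Pool.Agent.Helper49_Pauli.sq (qv cut L n) * amp P B g cut n l ^ 2))]
    have e2 : ∀ n ∈ momenta cut L, ∑ l, (L * cut) ^ 3 / alpha *
        (Pool.Agent.Helper49_Pauli.sq (qv cut L n) * amp P B g cut n l ^ 2) ≤
        (L * cut) ^ 3 / alpha * ((if Hp n then 2 * (Pool.Agent.Helper49_Pauli.sq (qv cut L n) *
            Pool.Agent.Helper49_Pauli.sq (cA B g cut L n)) +
          2 * (Pool.Agent.Helper49_Pauli.sq (qv cut L (-n)) *
            Pool.Agent.Helper49_Pauli.sq (cA B g cut L (-n))) else 0) +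
        (if Hp n then 0 else 2 * (Pool.Agent.Helper49_Pauli.sq (qv cut L n) *
            Pool.Agent.Helper49_Pauli.sq (cB B g cut L n)) +
          2 * (Pool.Agent.Helper49_Pauli.sq (qv cut L (-n)) *
            Pool.Agent.Helper49_Pauli.sq (cB B g cut L (-n))))) := by
      intro n hn
      rw [← Finset.mul_sum, ← Finset.mul_sum]
      refine mul_le_mul_of_nonneg_left ?_ hK
      have h := mul_le_mul_of_nonneg_left (amp_sq P B g hc hL (mem_momenta hn).1)
        (sq_nonneg' (qv cut L n))
      refine h.trans (le_of_eq ?_)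
      rw [qv_neg, sq_neg']
      split_ifs <;> ring
    refine (Finset.sum_le_sum e2).trans ?_
    rw [← Finset.mul_sum, Finset.sum_add_distrib]
    rw [← (fold (cut := cut) (L := L) fun n => 2 * (Pool.Agent.Helper49_Pauli.sq (qv cut L n) *
        Pool.Agent.Helper49_Pauli.sq (cA B g cut L n))).1,
      ← (fold (cut := cut) (L := L) fun n => 2 * (Pool.Agent.Helper49_Pauli.sq (qv cut L n) *
        Pool.Agent.Helper49_Pauli.sq (cB B g cut L n))).2, ← Finset.sum_add_distrib]
    rw [← sum_B B hc hL hB' (fun n => 2 * (Pool.Agent.Helper49_Pauli.sq (qv cut L n) *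
        Pool.Agent.Helper49_Pauli.sq (cA B g cut L n)) + 2 * (Pool.Agent.Helper49_Pauli.sq (qv cut L n) *
        Pool.Agent.Helper49_Pauli.sq (cB B g cut L n)))
        (by rw [qv_zero]; simp [Pool.Agent.Helper49_Pauli.sq])
        (fun n hn => by
          unfold cA cB
          rw [if_neg hn, if_neg hn]
          simp [Pool.Agent.Helper49_Pauli.sq])]
    have e3 : ∀ n ∈ B, 2 * (Pool.Agent.Helper49_Pauli.sq (qv cut L n) *
        Pool.Agent.Helper49_Pauli.sq (cA B g cut L n)) + 2 * (Pool.Agent.Helper49_Pauli.sq (qv cut L n) *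
        Pool.Agent.Helper49_Pauli.sq (cB B g cut L n)) ≤ 2 * ∑ j, ‖g n j‖ ^ 2 := by
      intro n hn
      have hq0 := sq_nonneg' (qv cut L n)
      have hq1 := hB' n hn
      have h1 : Pool.Agent.Helper49_Pauli.sq (cA B g cut L n) ≤
          Pool.Agent.Helper49_Pauli.sq (fun j => (g n j).im) := by
        unfold cA
        rw [if_pos hn, sq_neg']
        refine (sq_crs_le _ _).trans ?_
        have := sq_nonneg' (fun j => (g n j).im)
        nlinarith
      have h2 : Pool.Agent.Helper49_Pauli.sq (cB B g cut L n) ≤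
          Pool.Agent.Helper49_Pauli.sq (fun j => (g n j).re) := by
        unfold cB
        rw [if_pos hn]
        refine (sq_crs_le _ _).trans ?_
        have := sq_nonneg' (fun j => (g n j).re)
        nlinarith
      have h3 : ∑ j, ‖g n j‖ ^ 2 = Pool.Agent.Helper49_Pauli.sq (fun j => (g n j).re) +
          Pool.Agent.Helper49_Pauli.sq (fun j => (g n j).im) := by
        unfold Pool.Agent.Helper49_Pauli.sq
        rw [← Finset.sum_add_distrib]
        refine Finset.sum_congr rfl fun j _ => ?_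
        rw [← Complex.normSq_eq_norm_sq, Complex.normSq_apply]
        ring
      have h4 := sq_nonneg' (cA B g cut L n)
      have h5 := sq_nonneg' (cB B g cut L n)
      have h6 : Pool.Agent.Helper49_Pauli.sq (qv cut L n) * Pool.Agent.Helper49_Pauli.sq (cA B g cut L n) ≤
          Pool.Agent.Helper49_Pauli.sq (cA B g cut L n) := by nlinarith
      have h7 : Pool.Agent.Helper49_Pauli.sq (qv cut L n) * Pool.Agent.Helper49_Pauli.sq (cB B g cut L n) ≤
          Pool.Agent.Helper49_Pauli.sq (cB B g cut L n) := by nlinarith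
      rw [h3]
      linarith
    refine (mul_le_mul_of_nonneg_left (Finset.sum_le_sum e3) hK).trans (le_of_eq ?_)
    rw [← Finset.mul_sum]
    ring

end Pool.Agent.FTU.H73
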